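import Pool.Agent.N212.KS.Stm

/-!
# Project KS (helper212), POS: canonical heights are positive at points with dense orbit

Written by helper470.
-/

set_option autoImplicit false

namespace Pool.Agent.N470.KS

open Pool.Agent.N212.KS

universe u v w z

theorem t_POS (h : S_PER.{u, v, w}) : S_POS.{u, v, w, z} := by
  intro X N G ι _ _ _ _ _ _ D P E Z c hsep hinv hcan hnn x hx hdense i
  by_contra hneg
  have hci : c i x = 0 := le_antisymm (not_lt.1 hneg) (hnn i x hx)
  obtain ⟨g, hg1, hg2⟩ := hsep i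
  obtain ⟨_, hmul, A, B, hA, hAB⟩ := hcan
  have hZ : ∀ n : ℕ, g ^ n • x ∉ Z := fun n hn => hx ((hinv (g ^ n) x).1 hn)
  have hpow : ∀ (j : ι) (n : ℕ), c j (g ^ n • x) = (E.χ j g) ^ n * c j x := by
    intro j n
    rw [hmul j (g ^ n) x hx, map_pow]
  have hbd : ∀ n : ℕ, D.H (g ^ n • x) ≤ A * ∑ j, c j x + B := by
    intro n
    refine (hAB _ (hZ n)).trans ?_
    have h1 : ∑ j, c j (g ^ n • x) ≤ ∑ j, c j x := by
      refine Finset.sum_le_sum fun j _ => ?_
      rw [hpow]
      by_cases hj : j = i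
      · rw [hj, hci, mul_zero]
      · have h1 : (E.χ j g) ^ n ≤ 1 := pow_le_one₀ (E.χ_pos j g).le (hg2 j hj)
        exact mul_le_of_le_one_left (hnn j x hx) h1
    have h2 := mul_le_mul_of_nonneg_left h1 hA.le
    linarith
  obtain ⟨m, hm, hfix⟩ := h D P g x _ hbd
  have hall : ∀ y : X, g ^ m • y = y := by
    have hcl := P.closed_fix (g ^ m)
    have hsub : MulAction.orbit G x ⊆ {y : X | g ^ m • y = y} := by
      rintro _ ⟨k, rfl⟩
      show g ^ m • k • x = k • x
      rw [smul_smul, mul_comm, ← smul_smul, hfix]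
    have h1 := closure_minimal hsub hcl
    rw [hdense.closure_eq] at h1
    intro y
    exact h1 (Set.mem_univ y)
  have hpull := P.pull_triv (g ^ m) hall
  have h2 := E.pull_ℓ i (g ^ m)
  rw [hpull, Module.End.one_apply] at h2
  have h3 : D.I (E.ℓ i) = E.χ i (g ^ m) * D.I (E.ℓ i) := by
    have h4 := congrArg D.I h2
    rwa [map_smul, smul_eq_mul] at h4
  have h5 : E.χ i (g ^ m) = 1 := by
    refine mul_right_cancel₀ (E.I_pos i).ne' ?_
    rw [one_mul]
    exact h3.symm
  rw [map_pow] at h5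
  have h6 := one_lt_pow₀ hg1 hm.ne'
  linarith

end Pool.Agent.N470.KS
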